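import Pool.Agent.Helper21.MT10.Defs
import Pool.Agent.Helper21.MT9.Stmts

/-!
# Isolated Hodge numbers: exact statements of the modules (T10)
Proofs: /team-store/mt10_helper21.md
-/

set_option autoImplicit false

open NumberField MU

namespace MT

section defs

variable {K : Type} [Field K] {n : ℕ}

/-- a graded irreducible Lie algebra of infinitesimal isometries -/
structure GrD (ε : K) (ψ : Matrix (Fin n) (Fin n) K) (d : Fin n → ℤ)
    (a : Submodule K (Matrix (Fin n) (Fin n) K)) : Prop where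
  unit : ψ.det ≠ 0
  symm : ψ.transpose = ε • ψ
  sign : ε = 1 ∨ ε = -1
  grad : ∀ i j, ψ i j ≠ 0 → d i + d j = 0
  brk : Brk a
  iso : ∀ A ∈ a, A.transpose * ψ + ψ * A = 0
  irr : LIrr a
  comp : ∀ A ∈ a, ∀ x : ℤ, cmp d x A ∈ a

/-- the degree `N` is isolated -/
def IsoZ (d : Fin n → ℤ) (N : ℤ) : Prop :=
  ∀ i j k, (d i ≠ N ∧ d i ≠ -N) → (d j ≠ N ∧ d j ≠ -N) → (d k ≠ N ∧ d k ≠ -N) →
    d i + d j + d k ≠ N ∧ d i + d j ≠ 2 * N ∧ d i ≠ 3 * N

end defs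

/-- LIE9: the Lie theorem of T9 (from helper2's TOP: CMP for `d` and `-d`, and END). -/
def ST_LIE9 : Prop :=
  ∀ (K : Type) [Field K] [CharZero K] [IsAlgClosed K] (n : ℕ) (ε : K)
    (ψ : Matrix (Fin n) (Fin n) K) (d : Fin n → ℤ) (N : ℤ)
    (a : Submodule K (Matrix (Fin n) (Fin n) K)), TopD ε ψ d N a →
    ∀ A : Matrix (Fin n) (Fin n) K, A.transpose * ψ + ψ * A = 0 → A ∈ a

/-- DRV: skew matrices which normalise `a` are in `a` (Mathlib: derivations of Killing Lie algebras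
are inner, see helper3's RED; the commutant of `a` consists of scalars). -/
def ST_DRV : Prop :=
  ∀ (K : Type) [Field K] [CharZero K] [IsAlgClosed K] (n : ℕ) (ψ : Matrix (Fin n) (Fin n) K)
    (a : Submodule K (Matrix (Fin n) (Fin n) K)), ψ.det ≠ 0 → Brk a → LIrr a →
    (∀ A ∈ a, A.transpose * ψ + ψ * A = 0) → ∀ C : Matrix (Fin n) (Fin n) K,
      C.transpose * ψ + ψ * C = 0 → (∀ A ∈ a, C * A - A * C ∈ a) → C ∈ a

/-- ADD: additive functions of the degree (from DRV). -/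
def ST_ADD : Prop :=
  ∀ (K : Type) [Field K] [CharZero K] [IsAlgClosed K] (n : ℕ) (ε : K)
    (ψ : Matrix (Fin n) (Fin n) K) (d : Fin n → ℤ)
    (a : Submodule K (Matrix (Fin n) (Fin n) K)), GrD ε ψ d a →
    ∀ c : ℤ → ℤ, (∀ i, c (-d i) = -c (d i)) →
      (∀ i j k l, d i - d j = d k - d l → c (d i) - c (d j) = c (d k) - c (d l)) →
      Matrix.diagonal (fun j => (c (d j) : K)) ∈ a

/-- SHF: the additive functions given by an isolated degree. -/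
def ST_SHF : Prop :=
  ∀ (n : ℕ) (d : Fin n → ℤ) (N : ℤ), 0 < N → (∀ i, ∃ j, d j = -d i) → IsoZ d N →
    ∀ (u M : ℤ) (c : ℤ → ℤ),
      (∀ x, c x = u * x + if x = N then M else if x = -N then -M else 0) →
      (∀ i, c (-d i) = -c (d i)) ∧
      ∀ i j k l, d i - d j = d k - d l → c (d i) - c (d j) = c (d k) - c (d l)

/-- ONE: three degrees, with a one-dimensional top piece. -/
def ST_ONE : Prop :=
  ∀ (K : Type) [Field K] [CharZero K] (n : ℕ) (ε : K) (ψ : Matrix (Fin n) (Fin n) K)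
    (s : Fin n → ℤ) (a : Submodule K (Matrix (Fin n) (Fin n) K)), GrD ε ψ s a →
    (∀ j, |s j| ≤ 1) → (Finset.univ.filter fun j => s j = 1).card = 1 → (∃ j, s j = 0) →
    ∀ A : Matrix (Fin n) (Fin n) K, A.transpose * ψ + ψ * A = 0 → A ∈ a

/-- TOPG: the Lie theorem (from LIE9, ADD, SHF, ONE, GRA; see helper2's TOP). -/
def ST_TOPG : Prop :=
  ∀ (K : Type) [Field K] [CharZero K] [IsAlgClosed K] (n w : ℕ) (h : Fin n → ℕ)
    (ψ : Matrix (Fin n) (Fin n) K) (P : Matrix.GeneralLinearGroup (Fin n) K)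
    (a : Submodule K (Matrix (Fin n) (Fin n) K)), Good w h → ψ.det ≠ 0 →
    ψ.transpose = (-1 : K) ^ w • ψ → Brk a → LIrr a →
    (∀ A ∈ a, A.transpose * ψ + ψ * A = 0) →
    (P : Matrix (Fin n) (Fin n) K) * Matrix.diagonal (fun j => 2 * (h j : K) - (w : K)) *
      ((P⁻¹ : Matrix.GeneralLinearGroup (Fin n) K) : Matrix (Fin n) (Fin n) K) ∈ a →
    ∀ A : Matrix (Fin n) (Fin n) K, A.transpose * ψ + ψ * A = 0 → A ∈ a

/-- TOSG: see helper2's TOS. -/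
def ST_TOSG : Prop :=
  ∀ (K₀ K : Type) [Field K₀] [Field K] [CharZero K] [IsAlgClosed K] [Algebra K₀ K] (n w : ℕ)
    (h : Fin n → ℕ) (ψ : Matrix (Fin n) (Fin n) K₀) (P : Matrix.GeneralLinearGroup (Fin n) K)
    (a : Submodule K₀ (Matrix (Fin n) (Fin n) K₀)), Good w h → ψ.det ≠ 0 →
    ψ.transpose = (-1 : K₀) ^ w • ψ → Brk a →
    (∀ A ∈ a, ∃ c : K₀, A.transpose * ψ + ψ * A = c • ψ) → 2 * ∑ j, h j = n * w →
    (∀ U : Submodule K (Fin n → K),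
      (∀ A ∈ a, ∀ v ∈ U, (A.map (algebraMap K₀ K)).mulVec v ∈ U) → U = ⊥ ∨ U = ⊤) →
    (P : Matrix (Fin n) (Fin n) K) * Matrix.diagonal (fun j => (h j : K)) *
      ((P⁻¹ : Matrix.GeneralLinearGroup (Fin n) K) : Matrix (Fin n) (Fin n) K) ∈
        Submodule.span K {B | ∃ A ∈ a, B = A.map (algebraMap K₀ K)} →
    ∀ A : Matrix (Fin n) (Fin n) K₀, A.transpose * ψ + ψ * A = 0 → A ∈ a

/-- FULG -/
def ST_FULG : Prop :=
  ∀ (F : Type) [Field F] [NumberField F] (S : Finset ℕ) (n w : ℕ) (h : Fin n → ℕ)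
    (M : PMot F S n w h) (l : ℕ) [Fact l.Prime], 0 < w → Good w h → M.AIrrL l →
      ∀ H : Subgroup (Gal F), IsOpen (H : Set (Gal F)) → ∀ A : Matrix (Fin n) (Fin n) ℚ_[l],
        A.transpose * bas ℚ_[l] M.ψ + bas ℚ_[l] M.ψ * A = 0 → A ∈ LieZ (H.map (M.ρ l))

/-- HSGG -/
def ST_HSGG : Prop :=
  ∀ (F : Type) [Field F] [NumberField F] (S : Finset ℕ) (n w : ℕ) (h : Fin n → ℕ)
    (M : PMot F S n w h), 0 < w → Good w h → M.AIrrH → ∀ (K : Type) [Field K] [CharZero K],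
      M.Gsigma K = SimC w M.ψ K

/-- MAING: the theorem. -/
def ST_MAING : Prop :=
  ∀ (F : Type) [Field F] [NumberField F] (S : Finset ℕ) (n w : ℕ) (h : Fin n → ℕ)
    (M : PMot F S n w h), 0 < w → Good w h →
    (M.AIrrH → ∀ (K : Type) [Field K] [CharZero K],
      M.Gsigma K = SimC w M.ψ K ∧ M.Gsigma K ⊆ M.Gmot K ∧ M.Gmot K ⊆ Sim M.ψ K) ∧
    ∀ (l : ℕ) [Fact l.Prime], M.AIrrL l → ∀ (K : Type) [Field K] [Algebra ℚ_[l] K],
      (∀ H : Subgroup (Gal F), IsOpen (H : Set (Gal F)) → SimC w M.ψ K ⊆ ZC (M.ρ l '' H) K) ∧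
      M.Gl0 l K = SimC w M.ψ K ∧ M.Gl0 l K ⊆ M.Gl l K ∧ M.Gl l K ⊆ M.Gmot K ∧
      M.Gmot K ⊆ Sim M.ψ K ∧ (Odd w ∨ Odd n → SimC w M.ψ K = Sim M.ψ K) ∧
      (M.AIrrH → M.Gl0 l K = M.Gsigma K)

end MT
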