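import Pool.Agent.Helper21.MT10.POS
import Pool.Agent.Helper21.MT9.HSG

/-!
# HSGG: the Mumford-Tate group
-/

set_option autoImplicit false

open NumberField MU

namespace MT

/-- HSG -/
theorem st_HSGG (hla : ST_HLA) (hir : ST_HIR) (den : ST_DEN) (tos : ST_TOSG) (tsc : ST_TSC)
    (hwt : ST_HWT) (hdg7 : ST_HDG7) (hsm : ST_HSM) : ST_HSGG := by
  intro F _ _ S n w h M hw hT hM K _ _
  obtain ⟨a, ha, hbrk, hsim, hΘ⟩ := hla F S n w h M
  obtain ⟨hirr, hcomm⟩ := hir F S n w h M a hM hsim hΘ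
  have hn := good_pos hT
  have hirrC := den ℚ ℂ n (a : Set (Matrix (Fin n) (Fin n) ℚ)) hirr hcomm
  have hfull := tos ℚ ℂ n w h M.ψ M.hodge a hT M.ψ_det M.ψ_sym hbrk hsim (hsm F S n w h M)
    hirrC hΘ
  apply Set.Subset.antisymm
  · exact hdg7 F S n w h M K hn
  · intro g hg p q t ht
    by_cases h0 : t = 0
    · subst h0
      have h1 : (0 : Tensor n p q ℚ).base K = 0 := by
        funext i j
        show (((0 : ℚ)) : K) = 0
        exact Rat.cast_zero
      rw [h1]
      funext i j
      unfold act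
      refine Finset.sum_eq_zero fun i' _ => Finset.sum_eq_zero fun j' _ => ?_
      exact mul_zero _
    · have hpq := hwt F S n w h M p q t hw ht h0
      subst hpq
      exact tsc n p w M.ψ t hn M.ψ_det M.ψ_sym (fun A hA => (ha A).mp (hfull A hA) p p t ht) K g hg

end MT
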