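import Pool.Agent.Helper21.MT10.Stmts

/-!
# T10: the rank is positive
-/

set_option autoImplicit false

namespace MT

theorem good_pos {n w : ℕ} {h : Fin n → ℕ} (hT : Good w h) : 1 ≤ n := by
  obtain ⟨m, -, ⟨j, -⟩, -⟩ := hT
  have := j.2
  omega

end MT
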