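import Pool.Agent.Helper21.MT9.Defs

/-!
# Polarised motives with an isolated Hodge number one, or with small inner Hodge numbers
-/

set_option autoImplicit false

open NumberField MU

namespace MT

/-- the Hodge types `(x, w - x)` other than `(m, w - m)` and `(w - m, m)` -/
def Inn (w m x : ℕ) : Prop := x ≠ m ∧ x + m ≠ w

/-- The Hodge type `(m, w - m)` is isolated: with the differences `p - q` of the other types
`(p, q)` and `D = m - (w - m)`, the number `D` is not a sum of three of them, `2 D` is not a sum of
two, and `3 D` is not one of them. -/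
def Isol {n : ℕ} (w : ℕ) (h : Fin n → ℕ) (m : ℕ) : Prop :=
  ∀ i j k, Inn w m (h i) → Inn w m (h j) → Inn w m (h k) →
    h i + h j + h k ≠ m + w ∧ h i + h j ≠ 2 * m ∧ h i + w ≠ 3 * m

/-- Hodge numbers: there are types other than `(m, w - m)` and `(w - m, m)`, for some `m > w / 2`,
and either the type `(m, w - m)` is isolated with Hodge number one, or it is isolated or outermost
and all the other Hodge numbers are at most one, and at most two in the middle. (The type
`(p, w - p)` occurs `h^(p, w - p)` times in the list `h`.) -/
def Good {n : ℕ} (w : ℕ) (h : Fin n → ℕ) : Prop :=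
  ∃ m : ℕ, w < 2 * m ∧ (∃ j, Inn w m (h j)) ∧
    ((Isol w h m ∧ (Finset.univ.filter fun j => h j = m).card = 1) ∨
      ((Isol w h m ∨ ∀ j, h j ≤ m ∧ w ≤ h j + m) ∧
        2 ≤ (Finset.univ.filter fun j => h j = m).card ∧
        ∀ p : ℕ, Inn w m p →
          (Finset.univ.filter fun j => h j = p).card ≤ if 2 * p = w then 2 else 1))

end MT
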