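import Pool.Agent.Helper21.MT10.POS
import Pool.Agent.Helper21.MT9.FUL9

/-!
# FULG: the Lie algebra is large
-/

set_option autoImplicit false

open NumberField MU

namespace MT

/-- FUL9 -/
theorem st_FULG (irl : ST_IRL) (tos : ST_TOSG) (zar : ST_ZAR) (hsm : ST_HSM) : ST_FULG := by
  intro F _ _ S n w h M l _ hw hT hM H hH A hA
  obtain ⟨C, _, _, _, P, hP⟩ := M.sen_span l
  haveI : CharZero C := charZero_of_injective_algebraMap (algebraMap ℚ_[l] C).injective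
  obtain ⟨zbr, -, -, zsim, -⟩ := zar ℚ_[l] n (H.map (M.ρ l))
  have hdet := bas_det ℚ_[l] M.ψ M.ψ_det
  have hsym := bas_sym ℚ_[l] M.ψ w M.ψ_sym
  refine tos ℚ_[l] C n w h (bas ℚ_[l] M.ψ) P (LieZ (H.map (M.ρ l))) hT hdet hsym zbr
    (zsim _ hdet ?_) (hsm F S n w h M) (irl F S n w h M l hw hM H hH C) (hP H hH) A hA
  rintro _ ⟨g, -, rfl⟩
  exact ⟨_, M.gal_sim l g⟩

end MT
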