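import Pool.Agent.Helper11.MT7.Main
import Pool.Agent.Helper21.MT10.POS

/-!
# T10, module MAING: the full Mumford-Tate conjecture (copy of helper5's MAIN9)
-/

set_option autoImplicit false

open NumberField MU

namespace MT

/-- MAING -/
theorem st_MAING (ful9 : ST_FULG) (hsg : ST_HSGG) (zar : ST_ZAR) (ten : ST_TEN)
    (sim : ST_SIM) (sim7 : ST_SIM7) (ism : ST_ISM) (g07 : ST_G07)
    (idx : ST_IDX) (fre : ST_FRE) (hcyc : ST_CYC) : ST_MAING := by
  intro F _ _ S n w h M hw hthin
  obtain ⟨ten1, ten2⟩ := ten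
  have hn : 1 ≤ n := good_pos hthin
  have hmotS : ∀ (K : Type) [Field K] [CharZero K], M.Gmot K ⊆ Sim M.ψ K := by
    intro K _ _ g hg
    rw [ten2 K n M.ψ M.ψ_det]
    exact hg 2 2 _ M.mot_pol
  refine ⟨?_, ?_⟩
  · intro hA K _ _
    refine ⟨hsg F S n w h M hw hthin hA K, ?_, hmotS K⟩
    intro g hg a b t ht
    exact hg a b t (M.mot_hodge a b t ht)
  · intro l _ hL K _ _
    have : CharZero K := charZero_of_injective_algebraMap (algebraMap ℚ_[l] K).injective
    -- a prime different from `l`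
    obtain ⟨p₀, hp₀, hl⟩ : ∃ p₀ : ℕ, p₀.Prime ∧ p₀ ≠ l := by
      by_cases h2 : l = 2
      · exact ⟨3, Nat.prime_three, by omega⟩
      · exact ⟨2, Nat.prime_two, fun h' => h2 h'.symm⟩
    have hZC : ∀ H : Subgroup (Gal F), IsOpen (H : Set (Gal F)) →
        SimC w M.ψ K ⊆ ZC (M.ρ l '' H) K := by
      intro H hH
      obtain ⟨H₁, hle, hnor, hopen, e, he, hHe⟩ := exists_core H hH
      refine (M.simC_le hw zar sim sim7 ism idx fre hcyc l p₀ hp₀ hl H e he
        (fun g => hle (hHe g)) (ful9 F S n w h M l hw hthin hL H hH) K).trans ?_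
      intro g hg f hf
      refine hg f ?_
      rintro _ ⟨s, hs, rfl⟩
      exact hf _ ⟨s, hs, rfl⟩
    have htop : IsOpen ((⊤ : Subgroup (Gal F)) : Set (Gal F)) := by
      rw [Subgroup.coe_top]
      exact isOpen_univ
    have hGlZ : ZC (M.ρ l '' ((⊤ : Subgroup (Gal F)) : Set (Gal F))) K = M.Gl l K := by
      rw [Subgroup.coe_top, Set.image_univ]
      rfl
    have hGl0 : M.Gl0 l K = SimC w M.ψ K := by
      apply Set.Subset.antisymm
      · exact g07 F S n w h M l K hn
      · intro g hg H hH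
        exact hZC H hH hg
    refine ⟨hZC, hGl0, ?_, ?_, hmotS K, ?_, ?_⟩
    · intro g hg
      rw [← hGlZ]
      exact hg ⊤ htop
    · intro g hg a b t ht
      refine ten1 ℚ_[l] n a b (Set.range (M.ρ l)) t ?_ K g hg
      rintro _ ⟨s, rfl⟩
      exact M.mot_gal a b t ht l s
    · intro hodd
      apply Set.Subset.antisymm
      · rintro g ⟨c, hc, -⟩
        exact ⟨c, hc⟩
      · rintro g ⟨c, hc⟩
        refine ⟨c, hc, fun h1 h2 => ?_⟩
        exfalso
        rcases hodd with h3 | h3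
        · exact Nat.not_even_iff_odd.mpr h3 h1
        · exact Nat.not_even_iff_odd.mpr h3 h2
    · intro hA
      rw [hGl0, hsg F S n w h M hw hthin hA K]

end MT
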