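import Pool.Agent.Helper21.MT10.POS
import Pool.Agent.Helper2.MT9.TOS

/-!
# TOS: from an irreducible Lie algebra of similitudes to all infinitesimal isometries
-/

set_option autoImplicit false

namespace MT


/-- from an irreducible Lie algebra of similitudes over `K₀` whose span over `K` contains the
grading element to the full Lie algebra of isometries -/
theorem st_TOSG (hRED : ST_RED) (hTOP : ST_TOPG) : ST_TOSG := by
  intro K₀ K _ _ _ _ _ n w h ψ P a hT hdet hsym hbrk hsim hsum hirr hΘ A hA
  classical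
  set ι := algebraMap K₀ K with hι
  set ψ' : Matrix (Fin n) (Fin n) K := ψ.map ι with hψ'
  let aK : Submodule K (Matrix (Fin n) (Fin n) K) :=
    Submodule.span K {B | ∃ A ∈ a, B = A.map ι}
  have hn : 1 ≤ n := good_pos hT
  -- brackets
  have hgen : ∀ B ∈ a, B.map ι ∈ aK := fun B hB => Submodule.subset_span ⟨B, hB, rfl⟩
  have hbK : Brk aK := by
    have h1 : ∀ B ∈ a, ∀ Y ∈ aK, B.map ι * Y - Y * B.map ι ∈ aK := by
      intro B hB Y hY
      refine Submodule.span_induction (p := fun Y _ => B.map ι * Y - Y * B.map ι ∈ aK)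
        ?_ ?_ ?_ ?_ hY
      · rintro Y ⟨C, hC, rfl⟩
        have h2 := hgen _ (hbrk B hB C hC)
        rwa [Matrix.map_sub _ (fun x y => map_sub ι x y), Matrix.map_mul, Matrix.map_mul] at h2
      · simp
      · intro Y Z _ _ hY hZ
        have : B.map ι * (Y + Z) - (Y + Z) * B.map ι =
            (B.map ι * Y - Y * B.map ι) + (B.map ι * Z - Z * B.map ι) := by
          noncomm_ring
        rw [this]
        exact Submodule.add_mem _ hY hZ
      · intro c Y _ hY
        have : B.map ι * (c • Y) - (c • Y) * B.map ι = c • (B.map ι * Y - Y * B.map ι) := by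
          rw [Matrix.mul_smul, Matrix.smul_mul, smul_sub]
        rw [this]
        exact Submodule.smul_mem _ _ hY
    intro X hX Y hY
    refine Submodule.span_induction (p := fun X _ => X * Y - Y * X ∈ aK) ?_ ?_ ?_ ?_ hX
    · rintro X ⟨B, hB, rfl⟩
      exact h1 B hB Y hY
    · simp
    · intro X Z _ _ hX hZ
      have : (X + Z) * Y - Y * (X + Z) = (X * Y - Y * X) + (Z * Y - Y * Z) := by
        noncomm_ring
      rw [this]
      exact Submodule.add_mem _ hX hZ
    · intro c X _ hX
      have : (c • X) * Y - Y * (c • X) = c • (X * Y - Y * X) := by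
        rw [Matrix.mul_smul, Matrix.smul_mul, smul_sub]
      rw [this]
      exact Submodule.smul_mem _ _ hX
  -- similitudes
  have hsK : ∀ X ∈ aK, ∃ c : K, X.transpose * ψ' + ψ' * X = c • ψ' := by
    intro X hX
    refine Submodule.span_induction
      (p := fun X _ => ∃ c : K, X.transpose * ψ' + ψ' * X = c • ψ') ?_ ?_ ?_ ?_ hX
    · rintro X ⟨B, hB, rfl⟩
      obtain ⟨c, hc⟩ := hsim B hB
      refine ⟨ι c, ?_⟩
      have h2 := congrArg (fun M : Matrix (Fin n) (Fin n) K₀ => M.map ι) hc
      change (B.transpose * ψ + ψ * B).map ι = (c • ψ).map ι at h2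
      rw [Matrix.map_add _ (fun x y => map_add ι x y), Matrix.map_mul, Matrix.map_mul,
        Matrix.transpose_map] at h2
      rw [h2]
      ext i j
      change ι (c * ψ i j) = ι c * ι (ψ i j)
      rw [map_mul]
    · exact ⟨0, by simp⟩
    · rintro X Z _ _ ⟨c, hc⟩ ⟨e, he⟩
      refine ⟨c + e, ?_⟩
      rw [Matrix.transpose_add, Matrix.add_mul, Matrix.mul_add, add_smul, ← hc, ← he]
      abel
    · rintro c X _ ⟨e, he⟩
      refine ⟨c * e, ?_⟩
      rw [Matrix.transpose_smul, Matrix.smul_mul, Matrix.mul_smul, ← smul_add, he, smul_smul]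
  -- irreducible
  have hiK : LIrr aK := by
    intro U hU
    exact hirr U fun B hB v hv => hU _ (hgen B hB) v hv
  -- the derived algebra
  let b : Submodule K (Matrix (Fin n) (Fin n) K) :=
    Submodule.span K {X | ∃ B ∈ aK, ∃ C ∈ aK, X = B * C - C * B}
  have hba : b ≤ aK := by
    refine Submodule.span_le.mpr ?_
    rintro X ⟨B, hB, C, hC, rfl⟩
    exact hbK B hB C hC
  have hbb : Brk b := fun X hX Y hY =>
    Submodule.subset_span ⟨X, hba hX, Y, hba hY, rfl⟩
  have hbi : ∀ X ∈ b, X.transpose * ψ' + ψ' * X = 0 := by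
    intro X hX
    refine Submodule.span_induction
      (p := fun X _ => X.transpose * ψ' + ψ' * X = 0) ?_ ?_ ?_ ?_ hX
    · rintro X ⟨B, hB, C, hC, rfl⟩
      obtain ⟨c, hc⟩ := hsK B hB
      obtain ⟨e, he⟩ := hsK C hC
      have hc' : B.transpose * ψ' = c • ψ' - ψ' * B := by rw [← hc]; abel
      have he' : C.transpose * ψ' = e • ψ' - ψ' * C := by rw [← he]; abel
      have h1 : C.transpose * (B.transpose * ψ') = c • (e • ψ' - ψ' * C) -
          (e • ψ' - ψ' * C) * B := by
        rw [hc', Matrix.mul_sub, Matrix.mul_smul, he', ← Matrix.mul_assoc, he']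
      have h2 : B.transpose * (C.transpose * ψ') = e • (c • ψ' - ψ' * B) -
          (c • ψ' - ψ' * B) * C := by
        rw [he', Matrix.mul_sub, Matrix.mul_smul, hc', ← Matrix.mul_assoc, hc']
      rw [Matrix.transpose_sub, Matrix.transpose_mul, Matrix.transpose_mul, Matrix.sub_mul,
        Matrix.mul_assoc, Matrix.mul_assoc, h1, h2, Matrix.mul_sub, Matrix.sub_mul,
        Matrix.sub_mul, smul_sub, smul_sub, smul_smul, smul_smul, Matrix.smul_mul,
        Matrix.smul_mul, mul_comm e c, Matrix.mul_assoc, Matrix.mul_assoc]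
      abel
    · simp
    · intro X Z _ _ hX hZ
      rw [Matrix.transpose_add, Matrix.add_mul, Matrix.mul_add,
        show X.transpose * ψ' + Z.transpose * ψ' + (ψ' * X + ψ' * Z) =
          (X.transpose * ψ' + ψ' * X) + (Z.transpose * ψ' + ψ' * Z) from by abel, hX, hZ, add_zero]
    · intro c X _ hX
      rw [Matrix.transpose_smul, Matrix.smul_mul, Matrix.mul_smul, ← smul_add, hX, smul_zero]
  have hred := hRED K n aK hbK hiK
  have hn0 : (n : K) ≠ 0 := by
    have : n ≠ 0 := by omega
    exact_mod_cast this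
  have hbr : LIrr b := by
    intro U hU
    refine hiK U fun X hX v hv => ?_
    have h1 : X - (X.trace / n) • (1 : Matrix (Fin n) (Fin n) K) ∈ b := by
      refine hred X hX _ ?_
      rw [Matrix.trace_sub, Matrix.trace_smul, Matrix.trace_one, Fintype.card_fin, smul_eq_mul,
        div_mul_cancel₀ _ hn0, sub_self]
    have h2 := hU _ h1 v hv
    rw [Matrix.sub_mulVec, Matrix.smul_mulVec, Matrix.one_mulVec] at h2
    have h3 := Submodule.add_mem _ h2 (Submodule.smul_mem U (X.trace / n) hv)
    rwa [sub_add_cancel] at h3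
  -- the grading element
  have hgr : (P : Matrix (Fin n) (Fin n) K) *
      Matrix.diagonal (fun j => 2 * (h j : K) - (w : K)) *
      ((P⁻¹ : Matrix.GeneralLinearGroup (Fin n) K) : Matrix (Fin n) (Fin n) K) ∈ b := by
    have hPP : (P : Matrix (Fin n) (Fin n) K) *
        ((P⁻¹ : Matrix.GeneralLinearGroup (Fin n) K) : Matrix (Fin n) (Fin n) K) = 1 := by
      rw [← Matrix.GeneralLinearGroup.coe_mul, mul_inv_cancel, Matrix.GeneralLinearGroup.coe_one]
    have hPP' : ((P⁻¹ : Matrix.GeneralLinearGroup (Fin n) K) : Matrix (Fin n) (Fin n) K) *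
        (P : Matrix (Fin n) (Fin n) K) = 1 := by
      rw [← Matrix.GeneralLinearGroup.coe_mul, inv_mul_cancel, Matrix.GeneralLinearGroup.coe_one]
    have hd : Matrix.diagonal (fun j => 2 * (h j : K) - (w : K)) =
        (2 : K) • Matrix.diagonal (fun j => (h j : K)) -
          (w : K) • (1 : Matrix (Fin n) (Fin n) K) := by
      ext i j
      by_cases hij : i = j
      · subst hij
        simp
      · simp [Matrix.diagonal_apply_ne _ hij, Matrix.one_apply_ne hij]
    have h1 : (P : Matrix (Fin n) (Fin n) K) *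
        Matrix.diagonal (fun j => 2 * (h j : K) - (w : K)) *
        ((P⁻¹ : Matrix.GeneralLinearGroup (Fin n) K) : Matrix (Fin n) (Fin n) K) =
        (2 : K) • ((P : Matrix (Fin n) (Fin n) K) * Matrix.diagonal (fun j => (h j : K)) *
          ((P⁻¹ : Matrix.GeneralLinearGroup (Fin n) K) : Matrix (Fin n) (Fin n) K)) -
          (w : K) • (1 : Matrix (Fin n) (Fin n) K) := by
      rw [hd, Matrix.mul_sub, Matrix.sub_mul, Matrix.mul_smul, Matrix.smul_mul, Matrix.mul_smul,
        Matrix.smul_mul, Matrix.mul_one, hPP]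
    rw [h1]
    refine hred _ (Submodule.smul_mem _ _ hΘ) _ ?_
    rw [← h1, Matrix.trace_mul_comm, ← Matrix.mul_assoc, hPP', Matrix.one_mul,
      Matrix.trace_diagonal, Finset.sum_sub_distrib, ← Finset.mul_sum, Finset.sum_const,
      Finset.card_univ, Fintype.card_fin, nsmul_eq_mul]
    have h4 : ((2 * ∑ j, h j : ℕ) : K) = ((n * w : ℕ) : K) := by rw [hsum]
    push_cast at h4
    rw [h4, sub_self]
  have hdet' : ψ'.det ≠ 0 := by
    rw [hψ', ← RingHom.mapMatrix_apply, ← RingHom.map_det]
    exact (map_ne_zero_iff _ ι.injective).mpr hdet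
  have hsym' : ψ'.transpose = (-1 : K) ^ w • ψ' := by
    rw [hψ', ← Matrix.transpose_map, hsym]
    ext i j
    change ι ((-1) ^ w * ψ i j) = (-1) ^ w * ι (ψ i j)
    rw [map_mul, map_pow, map_neg, map_one]
  have hA' : (A.map ι).transpose * ψ' + ψ' * A.map ι = 0 := by
    have h2 := congrArg (fun M : Matrix (Fin n) (Fin n) K₀ => M.map ι) hA
    change (A.transpose * ψ + ψ * A).map ι = (0 : Matrix (Fin n) (Fin n) K₀).map ι at h2
    rw [Matrix.map_add _ (fun x y => map_add ι x y), Matrix.map_mul, Matrix.map_mul,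
      Matrix.transpose_map, Matrix.map_zero _ (map_zero ι)] at h2
    exact h2
  have hfin := hTOP K n w h ψ' P b hT hdet' hsym' hbb hbr hbi hgr (A.map ι) hA'
  exact Tos.mem_of_map_mem_span a A (hba hfin)

end MT
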